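import Mathlib
import Pool.Agent.H17.DG.Main

set_option autoImplicit false

/-!
# The Bodirsky–Pinsker conjecture is equivalent to its restriction to oriented graphs

Let `k` be a natural number. Every template `A` in the scope of the conjecture is matched by an
infinite oriented graph `(G; E)` in the scope of the conjecture (a reduct of a countable finitely
bounded homogeneous structure) without algebraicity in which every isomorphism between induced
subgraphs with at most `k` vertices extends to an automorphism:
* `(G; E)` pp-constructs `A`, and `CSP (G; E)` reduces to `CSP A` by an explicit transformation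
  of instances, so that both problems have the same complexity up to polynomial time reductions;
* `(G; E)` pp-constructs `K₃` if and only if `A` does.
Hence the conjecture holds for all templates as soon as it holds for such oriented graphs.
-/

namespace Pool.Agent.H17.DG.Old.OrientedReduction

open FirstOrder FirstOrder.Language Pool.Agent.H74.Stub Pool.Agent.H17.DG

theorem result (k : ℕ) :
    (∀ (L : FirstOrder.Language.{0, 0}) (A : Type) [L.Structure A], InScope L A →
      ∃ (G : Type) (E : G → G → Prop), OrientedTemplate k G E ∧
        @PPConstructs Dig G (digStr E) L A _ ∧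
        (@PPConstructs Dig G (digStr E) Dig (Fin 3) K3 ↔ @PPConstructs L A _ Dig (Fin 3) K3) ∧
        TournamentReduction k G E L A) ∧
    (∀ Tract : ∀ (L : FirstOrder.Language.{0, 0}) (A : Type) [L.Structure A], Prop,
      (∀ (L L' : FirstOrder.Language.{0, 0}) (A A' : Type) [L.Structure A] [L'.Structure A'],
        InScope L A → InScope L' A' → PPConstructs L A L' A' → Tract L A → Tract L' A') →
      (∀ (G : Type) (E : G → G → Prop), OrientedTemplate k G E →
        ¬ @PPConstructs Dig G (digStr E) Dig (Fin 3) K3 → @Tract Dig G (digStr E)) →
      ∀ (L : FirstOrder.Language.{0, 0}) (A : Type) [L.Structure A], InScope L A →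
        ¬ @PPConstructs L A _ Dig (Fin 3) K3 → Tract L A) := by
  refine ⟨fun L A _ hA => reduction k L A hA, ?_⟩
  intro Tract hT hG L A _ hA hK
  obtain ⟨G, E, h1, h2, h3, -⟩ := reduction k L A hA
  have h4 := hG G E h1 (fun h => hK (h3.1 h))
  exact @hT Dig L G A (digStr E) _ h1.1 hA h2 h4

end Pool.Agent.H17.DG.Old.OrientedReduction
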